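import Pool.Agent.Helper292.ForceCH
import Pool.Agent.H50Z.Mic.Defs

/-!
# Scales, concentrated pairs, and the corresponding sentences of the forcing language
-/

set_option autoImplicit false

namespace Pool.Agent.H669Z.Hech

open Pool.Agent.Helper292.ForceCH

/-- The dominating number: the least size of a family of functions which eventually dominates
every function. -/
noncomputable def dominatingNumber : Cardinal.{0} :=
  sInf {c : Cardinal.{0} | ∃ F : Set (ℕ → ℕ),
    (∀ g : ℕ → ℕ, ∃ f ∈ F, {n : ℕ | f n < g n}.Finite) ∧ Cardinal.mk F = c}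

/-- `f n ≤ g n` from some point on. -/
def LeStar (f g : ℕ → ℕ) : Prop := ∃ m, ∀ n, m ≤ n → f n ≤ g n

/-- Every family of functions indexed by the countable ordinals is eventually dominated. -/
def Bounded : Prop := ∀ f : Om → ℕ → ℕ, ∃ g : ℕ → ℕ, ∀ a, LeStar (f a) g

/-- There is a dominating family, increasing along the linear order `K`. -/
def Scale (K : Type) [LinearOrder K] : Prop :=
  ∃ d : K → ℕ → ℕ, (∀ k k', k ≤ k' → LeStar (d k) (d k')) ∧ ∀ f : ℕ → ℕ, ∃ k, LeStar f (d k)

/-- Some initial segment of `x` is in `U`. -/
def InOpen (x : ℕ → Bool) (U : Set (List Bool)) : Prop :=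
  ∃ s : List Bool, s ∈ U ∧ ∀ m : Fin s.length, x m = s.get m

/-- There are distinct points `a (α, b)` of the Cantor space such that every open set which
contains all `a (α, false)` contains `a (α, true)` for all large `α`. -/
def Conc : Prop :=
  ∃ a : Om × Bool → ℕ → Bool, (∀ i i', i ≠ i' → ∃ m b, a i m = b ∧ a i' m = !b) ∧
    ∀ U : Set (List Bool), (∀ α, InOpen (a (α, false)) U) →
      ∃ β, ∀ α, β ≤ α → InOpen (a (α, true)) U

variable {P : Type} [Preorder P]

/-- The sentence `LeStar f g` for names `f`, `g` of functions. -/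
def FLeStar (f g : ℕ → ℕ → Set P) : Set P :=
  fex fun m : ℕ => fall fun n => fall fun x => fall fun y =>
    fimp (fand (fground (m ≤ n)) (fand (meets (f n x)) (meets (g n y)))) (fground (x ≤ y))

/-- The sentence `InOpen x U` for names `x`, `U`. -/
def FInOpen (x : ℕ → Bool → Set P) (U : List Bool → Set P) : Set P :=
  fex fun s : List Bool => fand (meets (U s)) (fall fun m : Fin s.length => meets (x m (s.get m)))

variable (P)

/-- The sentence `Bounded`. -/
def FBounded : Set P :=
  fall fun f : Om → ℕ → ℕ → Set P => fimp (fall fun a => IsFun (f a))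
    (fex fun g : ℕ → ℕ → Set P => fand (IsFun g) (fall fun a => FLeStar (f a) g))

/-- The sentence `Scale K`. -/
def FScale (K : Type) [LinearOrder K] : Set P :=
  fex fun d : K → ℕ → ℕ → Set P => fand (fall fun k => IsFun (d k))
    (fand (fall fun k => fall fun k' => fimp (fground (k ≤ k')) (FLeStar (d k) (d k')))
      (fall fun f : ℕ → ℕ → Set P => fimp (IsFun f) (fex fun k => FLeStar f (d k))))

/-- The sentence `Conc`. -/
def FConc : Set P :=
  fex fun a : Om × Bool → ℕ → Bool → Set P => fand (fall fun i => IsFun (a i))
    (fand (fall fun i => fall fun i' => fimp (fground (i ≠ i'))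
        (fex fun m => fex fun b => fand (meets (a i m b)) (meets (a i' m (!b)))))
      (fall fun U : List Bool → Set P => fimp (fall fun α => FInOpen (a (α, false)) U)
        (fex fun β => fall fun α => fimp (fground (β ≤ α)) (FInOpen (a (α, true)) U))))

end Pool.Agent.H669Z.Hech
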