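import Pool.Agent.H669Z.Hech.Poset
import Pool.Agent.H669Z.Hech.Defs

/-!
# What the iteration forces
-/

set_option autoImplicit false

namespace Pool.Agent.H669Z.Hech

open Pool.Agent.Helper292.ForceCH Cardinal

section

variable {P : Type} [Preorder P]

theorem down_isFun {X Y : Type} (R : X → Y → Set P) : Down (IsFun R) :=
  down_fand (down_fall fun _ => down_fex _)
    (down_fall fun _ => down_fall fun _ => down_fall fun _ => down_fimp _ _)

theorem fex_of_mem {ι : Type} {φ : ι → Set P} {p : P} (i : ι) (hd : Down (φ i))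
    (h : p ∈ φ i) : p ∈ fex φ :=
  mem_fex.2 fun q hq => ⟨q, le_rfl, i, hd _ h _ hq⟩

theorem meets_of_mem {N : Set P} {p : P} (h : p ∈ N) : p ∈ meets N :=
  fun q hq => ⟨q, le_rfl, p, h, hq⟩

theorem exists_of_meets {N : Set P} (hN : Down N) {p : P} (h : p ∈ meets N) :
    ∃ q ≤ p, q ∈ N := by
  obtain ⟨r, hr, s, hs, hle⟩ := h p le_rfl
  exact ⟨r, hr, hN s hs r hle⟩

theorem fun_total {X Y : Type} {R : X → Y → Set P} {p : P} (h : p ∈ IsFun R)
    (x : X) : ∃ q ≤ p, ∃ y, q ∈ meets (R x y) := mem_fex.1 (h.1 x) p le_rfl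

theorem fun_unique {X Y : Type} {R : X → Y → Set P} {p : P} (h : p ∈ IsFun R)
    {x : X} {y y' : Y} (h1 : p ∈ meets (R x y)) (h2 : p ∈ meets (R x y')) : y = y' := by
  obtain ⟨r, _, hr⟩ := mem_fimp.1 (h.2 x y y') p le_rfl ⟨h1, h2⟩
  exact hr

theorem no_collapse (hc : ∀ A : Set P, (∀ a ∈ A, ∀ b ∈ A, (∃ r, r ≤ a ∧ r ≤ b) → a = b) →
    A.Countable) (p : P) : p ∈ OmegaOnePreserved P := by
  intro q _ hq
  obtain ⟨r, -, R, hR1, hR2⟩ := mem_fex.1 hq q le_rfl
  have h1 : ∀ n, {y | ∃ t ≤ r, t ∈ meets (R n y)}.Countable := by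
    intro n
    have h2 : ∀ y : {y | ∃ t ≤ r, t ∈ meets (R n y)}, ∃ t ≤ r, t ∈ meets (R n y) := fun y => y.2
    choose t ht1 ht2 using h2
    have h3 : ∀ y y' s, s ≤ t y → s ≤ t y' → y = y' := by
      intro y y' s hs hs'
      exact Subtype.ext (fun_unique (down_isFun R r hR1 s (hs.trans (ht1 y)))
        (down_meets _ _ (ht2 y) s hs) (down_meets _ _ (ht2 y') s hs'))
    have h4 : (Set.range t).Countable := by
      refine hc _ ?_
      rintro _ ⟨y, rfl⟩ _ ⟨y', rfl⟩ ⟨s, hs, hs'⟩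
      rw [h3 y y' s hs hs']
    have h5 : Function.Injective t := fun y y' h => h3 y y' (t y) le_rfl h.le
    have h6 := h4.to_subtype
    exact Set.countable_coe_iff.1 ((Equiv.ofInjective t h5).countable_iff.2 h6)
  obtain ⟨f, hf⟩ : ∃ f : ℕ → Om, ⋃ n, {y | ∃ t ≤ r, t ∈ meets (R n y)} ⊆ Set.range f :=
    Set.countable_iff_exists_subset_range.1 (Set.countable_iUnion h1)
  obtain ⟨y, hy⟩ := exists_bound f
  obtain ⟨t, ht, n, hn⟩ := mem_fex.1 (hR2 y) r le_rfl
  obtain ⟨m, hm⟩ := hf (Set.mem_iUnion.2 ⟨n, t, ht, hn⟩)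
  exact (hy m).ne hm

end

section

variable {J L : Type} [LinearOrder L] [WellFoundedLT L] {rk : J → L}

theorem capture (f : ℕ → ℕ → Set (Cond rk)) (p : Cond rk) (hp : p ∈ IsFun f) :
    ∃ (F : Pt J → ℕ → ℕ) (S : Set J), S.Countable ∧ Dep F S ∧
      (∀ (m : ℕ) (q : Cond rk), ∃ r ≤ q, ∃ k, ∀ x ∈ r.1.ext, F x m = k) ∧
      ∀ q ≤ p, ∀ m v, q ∈ meets (f m v) → ∃ r ≤ q, ∀ x ∈ r.1.ext, F x m = v := by
  classical
  let D : ℕ → Set (Cond rk) := fun m =>
    {a | (a ≤ p ∧ ∃ v, a ∈ meets (f m v)) ∨ ¬ ∃ r, r ≤ a ∧ r ≤ p}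
  have hD : ∀ m q, ∃ d ≤ q, d ∈ D m := by
    intro m q
    by_cases h : ∃ r, r ≤ q ∧ r ≤ p
    · obtain ⟨r, h1, h2⟩ := h
      obtain ⟨t, ht, v, hv⟩ := fun_total (down_isFun f p hp r h2) m
      exact ⟨t, ht.trans h1, Or.inl ⟨ht.trans h2, v, hv⟩⟩
    · exact ⟨q, le_rfl, Or.inr h⟩
  have hB : ∀ m, ∃ b : ℕ → Cond rk, (∀ i, b i ∈ D m) ∧ ∀ q, ∃ r ≤ q, ∃ i, r ≤ b i := by
    intro m
    obtain ⟨B, h1, h2, h3⟩ := exists_predense (D m)
    have hne : B.Nonempty := by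
      obtain ⟨d, -, hd⟩ := hD m top
      obtain ⟨b, hb, -⟩ := h3 d hd
      exact ⟨b, hb⟩
    obtain ⟨b, rfl⟩ := h2.exists_eq_range hne
    refine ⟨b, fun i => h1 ⟨i, rfl⟩, fun q => ?_⟩
    obtain ⟨d, hdq, hd⟩ := hD m q
    obtain ⟨_, ⟨i, rfl⟩, r, h4, h5⟩ := h3 d hd
    exact ⟨r, h4.trans hdq, i, h5⟩
  choose b hb1 hb2 using hB
  let val : ℕ → ℕ → ℕ := fun m i => if h : ∃ v, b m i ∈ meets (f m v) then h.choose else 0
  let F : Pt J → ℕ → ℕ := fun x m => val m (sInf {i | x ∈ (b m i).1.ext})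
  have hdec : ∀ m N (r0 : Cond rk), ∃ r ≤ r0, ∀ i < N, r ≤ b m i ∨
      ∀ x ∈ r.1.ext, x ∉ (b m i).1.ext := by
    intro m N r0
    induction N with
    | zero => exact ⟨r0, le_rfl, fun i hi => absurd hi (by omega)⟩
    | succ N ih =>
      obtain ⟨r, hr, h⟩ := ih
      obtain ⟨t, ht, h'⟩ := decide_ext r (b m N)
      refine ⟨t, ht.trans hr, fun i hi => ?_⟩
      rcases (Nat.lt_succ_iff.1 hi).eq_or_lt with rfl | hi'
      · exact h'
      · rcases h i hi' with h1 | h1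
        · exact Or.inl (ht.trans h1)
        · exact Or.inr fun x hx => h1 x (ht hx)
  have key : ∀ m q, ∃ r ≤ q, ∃ i, r ≤ b m i ∧ ∀ x ∈ r.1.ext, F x m = val m i := by
    intro m q
    obtain ⟨r0, hr0, i0, hi0⟩ := hb2 m q
    obtain ⟨r, hr, h⟩ := hdec m i0 r0
    have hne : {i | r ≤ b m i}.Nonempty := ⟨i0, hr.trans hi0⟩
    refine ⟨r, hr.trans hr0, sInf {i | r ≤ b m i}, Nat.sInf_mem hne, fun x hx => ?_⟩
    have h1 : sInf {i | x ∈ (b m i).1.ext} = sInf {i | r ≤ b m i} := by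
      have h2 : x ∈ (b m (sInf {i | r ≤ b m i})).1.ext := Nat.sInf_mem hne hx
      refine le_antisymm (Nat.sInf_le h2) ?_
      by_contra hc
      have h3 := not_le.1 hc
      have h4 : sInf {i | r ≤ b m i} ≤ i0 := Nat.sInf_le (hr.trans hi0)
      rcases h _ (h3.trans_le h4) with h5 | h5
      · exact hc (Nat.sInf_le h5)
      · exact h5 x hx (Nat.sInf_mem (s := {i | x ∈ (b m i).1.ext}) ⟨_, h2⟩)
    simp only [F, h1]
  choose S hS1 hS2 using fun m i => exists_dep (b m i)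
  refine ⟨F, ⋃ m, ⋃ i, S m i, Set.countable_iUnion fun m => Set.countable_iUnion fun i => hS1 m i,
    fun x y hxy => ?_, fun m q => ?_, fun q hq m v hv => ?_⟩
  · funext m
    have : {i | x ∈ (b m i).1.ext} = {i | y ∈ (b m i).1.ext} := by
      ext i
      have h1 : ∀ j ∈ S m i, x j = y j := fun j hj =>
        hxy j (Set.mem_iUnion.2 ⟨m, Set.mem_iUnion.2 ⟨i, hj⟩⟩)
      exact ⟨hS2 m i x y h1, hS2 m i y x fun j hj => (h1 j hj).symm⟩
    simp only [F, this]
  · obtain ⟨r, hr, i, -, h⟩ := key m q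
    exact ⟨r, hr, _, h⟩
  · obtain ⟨r, hr, i, h1, h2⟩ := key m q
    refine ⟨r, hr, fun x hx => ?_⟩
    rw [h2 x hx]
    rcases hb1 m i with ⟨-, h3⟩ | h3
    · simp only [val, h3, dif_pos]
      exact fun_unique (down_isFun f p hp r (hr.trans hq))
        (down_meets _ _ h3.choose_spec r h1) (down_meets _ _ hv r hr)
    · exact absurd ⟨r, h1, hr.trans hq⟩ h3

/-- the name of `φ` of the generic function at the coordinate `j` -/
def gen {Y : Type} (φ : ℕ → Y) (j : J) (m : ℕ) (v : Y) : Set (Cond rk) :=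
  {p | ∀ x ∈ p.1.ext, φ (x j m) = v}

theorem down_gen {Y : Type} (φ : ℕ → Y) (j : J) (m : ℕ) (v : Y) :
    Down (gen (rk := rk) φ j m v) := fun _ hp _ hq x hx => hp x (hq hx)

theorem gen_isFun {Y : Type} (φ : ℕ → Y) (j : J) (p : Cond rk) : p ∈ IsFun (gen φ j) := by
  refine ⟨fun m => mem_fex.2 fun q _ => ?_, fun m v v' => mem_fimp.2 ?_⟩
  · obtain ⟨r, hr, h, -⟩ := longer q j (m + 1)
    exact ⟨r, hr, φ (r.1.f j m), meets_of_mem fun x hx => by rw [(hx j).1 m (by omega)]⟩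
  · rintro q - ⟨h1, h2⟩
    obtain ⟨r, hr, h3⟩ := exists_of_meets (down_gen φ j m v) h1
    obtain ⟨t, ht, h4⟩ := exists_of_meets (down_gen φ j m v') (down_meets _ _ h2 r hr)
    obtain ⟨x, hx⟩ := ext_nonempty t
    exact ⟨q, le_rfl, (h3 x (ht hx)).symm.trans (h4 x hx)⟩

theorem dominate {f : ℕ → ℕ → Set (Cond rk)} {p : Cond rk} {F : Pt J → ℕ → ℕ} {j : J}
    (hF : Adm rk (rk j) F)
    (h : ∀ q ≤ p, ∀ m v, q ∈ meets (f m v) → ∃ r ≤ q, ∀ x ∈ r.1.ext, F x m = v) :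
    p ∈ FLeStar f (gen id j) := by
  refine mem_fex.2 fun q hq => ?_
  obtain ⟨r, hr, h1⟩ := promise q j hF
  refine ⟨r, hr, q.1.n j, fun n v w => mem_fimp.2 ?_⟩
  rintro t ht ⟨h2, h3, h4⟩
  obtain ⟨t1, ht1, h5⟩ := h t (ht.trans (hr.trans hq)) n v h3
  obtain ⟨t2, ht2, h6⟩ := exists_of_meets (down_gen id j n w) (down_meets _ _ h4 t1 ht1)
  obtain ⟨x, hx⟩ := ext_nonempty t2
  refine ⟨t, le_rfl, ?_⟩
  have h7 := h1 x (ht (ht1 (ht2 hx))) n h2
  rw [h5 x (ht2 hx)] at h7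
  exact h7.trans (h6 x hx).le

end

/-- the second uncountable ordinal -/
abbrev Om2 : Type := (ℵ_ 2 : Cardinal.{0}).ord.ToType

abbrev JJ : Type := (Om × Bool) ⊕ Om2

def rk0 : JJ → WithBot Om2 := Sum.elim (fun _ => ⊥) fun k => (k : WithBot Om2)

theorem exists_level (S : Om → Set JJ) (hS : ∀ a, (S a).Countable) :
    ∃ k : Om2, ∀ a, ∀ j ∈ S a, rk0 j < (k : WithBot Om2) := by
  have h12 : (ℵ_ 2 : Cardinal.{0}) = Order.succ ℵ₁ := by
    rw [succ_aleph]; norm_num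
  have hOm : #Om = ℵ₁ := by simp
  let T : Set Om2 := ⋃ a, Sum.inr ⁻¹' S a
  have hT : #T ≤ ℵ₁ := by
    refine (mk_iUnion_le _).trans ?_
    rw [hOm]
    refine mul_le_of_le (aleph0_le_aleph 1) le_rfl (ciSup_le' fun a => ?_)
    exact (mk_le_aleph0_iff.2 ((hS a).preimage Sum.inr_injective).to_subtype).trans
      (aleph0_le_aleph 1)
  have hI : ∀ k : Om2, #(Set.Iic k) ≤ ℵ₁ := by
    intro k
    have h1 : #(Set.Iio k) < ℵ_ 2 := by
      have := mk_Iio_lt k (by simp)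
      simpa using this
    replace h1 := Order.lt_succ_iff.1 (h1.trans_eq h12)
    rw [← Set.Iio_insert]
    refine (mk_insert_le).trans ?_
    exact add_le_of_le (aleph0_le_aleph 1) h1 (one_le_aleph0.trans (aleph0_le_aleph 1))
  by_contra hc
  push Not at hc
  have h2 : (Set.univ : Set Om2) ⊆ ⋃ k : T, Set.Iic k.1 := by
    intro k _
    obtain ⟨a, j, hj, h⟩ := hc k
    rcases j with i | k'
    · simp [rk0] at h
    · exact Set.mem_iUnion.2 ⟨⟨k', Set.mem_iUnion.2 ⟨a, hj⟩⟩, by simpa [rk0] using h⟩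
  have h3 := (mk_le_mk_of_subset h2).trans (mk_iUnion_le _)
  have h4 : #T * ⨆ k : T, #(Set.Iic k.1) ≤ ℵ₁ :=
    mul_le_of_le (aleph0_le_aleph 1) hT (ciSup_le' fun k => hI k)
  have h5 := h3.trans h4
  rw [mk_univ, mk_ord_toType] at h5
  exact absurd (h12.ge.trans h5) (not_le.2 (Order.lt_succ _))

theorem down_FLeStar {P : Type} [Preorder P] (f g : ℕ → ℕ → Set P) : Down (FLeStar f g) :=
  down_fex _

theorem forces_bounded (p : Cond rk0) : p ∈ FBounded (Cond rk0) := by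
  refine fun f => fimp_of fun q _ hq => ?_
  choose F S h1 h2 h3 h4 using fun a => capture (f a) q (hq a)
  obtain ⟨k, hk⟩ := exists_level S h1
  refine fex_of_mem (gen id (Sum.inr k))
    (down_fand (down_isFun _) (down_fall fun _ => down_FLeStar _ _)) ⟨gen_isFun _ _ _, fun a => ?_⟩
  exact dominate (adm_of_global (h1 a) (hk a) (h2 a) (h3 a)) (h4 a)

theorem forces_scale (p : Cond rk0) : p ∈ FScale (Cond rk0) Om2 := by
  refine fex_of_mem (fun k => gen id (Sum.inr k))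
    (down_fand (down_fall fun _ => down_isFun _)
      (down_fand (down_fall fun _ => down_fall fun _ => down_fimp _ _)
        (down_fall fun _ => down_fimp _ _)))
    ⟨fun k => gen_isFun _ _ _, fun k k' => fimp_of fun q _ hk => ?_,
      fun f => fimp_of fun q _ hq => ?_⟩
  · rcases (show k ≤ k' from hk).eq_or_lt with rfl | hk'
    · refine fex_of_mem 0 (down_fall fun _ => down_fall fun _ => down_fall fun _ => down_fimp _ _)
        fun n v w => fimp_of ?_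
      rintro t - ⟨-, h1, h2⟩
      exact (fun_unique (gen_isFun id (Sum.inr k) t) h1 h2).le
    · refine dominate (F := fun x => x (Sum.inr k))
        (adm_of_global (S := {Sum.inr k}) (Set.countable_singleton _) ?_ ?_ fun m t => ?_)
        fun t _ m v hv => exists_of_meets (down_gen id _ m v) hv
      · rintro _ rfl
        simpa [rk0] using hk'
      · intro x y h
        exact h _ rfl
      · obtain ⟨r, hr, h, -⟩ := longer t (Sum.inr k) (m + 1)
        exact ⟨r, hr, r.1.f (Sum.inr k) m, fun x hx => (hx _).1 m (by omega)⟩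
  · obtain ⟨F, S, h1, h2, h3, h4⟩ := capture f q hq
    obtain ⟨a⟩ : Nonempty Om := inferInstance
    obtain ⟨k, hk⟩ := exists_level (fun _ => S) fun _ => h1
    exact fex_of_mem k (down_FLeStar _ _) (dominate (adm_of_global h1 (hk a) h2 h3) h4)

theorem fin_gen (j : JJ) (s : List Bool) (q : Cond rk0)
    (h : ∀ m : Fin s.length, q ∈ meets (gen (rk := rk0) Nat.bodd j m (s.get m))) :
    ∃ r ≤ q, ∀ x ∈ r.1.ext, ∀ m : Fin s.length, Nat.bodd (x j m) = s.get m := by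
  obtain ⟨r, hr, h1, -⟩ := longer q j s.length
  refine ⟨r, hr, fun x hx m => ?_⟩
  obtain ⟨t, ht, h2⟩ := exists_of_meets (down_gen _ _ _ _) (down_meets _ _ (h m) r hr)
  obtain ⟨y, hy⟩ := ext_nonempty t
  rw [(hx j).1 m (by omega), ← (ht hy j).1 m (by omega)]
  exact h2 y hy

theorem forces_conc (p : Cond rk0) : p ∈ FConc (Cond rk0) := by
  classical
  refine fex_of_mem (fun i => gen Nat.bodd (Sum.inl i))
    (down_fand (down_fall fun _ => down_isFun _)
      (down_fand (down_fall fun _ => down_fall fun _ => down_fimp _ _)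
        (down_fall fun _ => down_fimp _ _)))
    ⟨fun i => gen_isFun _ _ _, fun i i' => fimp_of fun q _ hi => ?_,
      fun U => fimp_of fun q _ hq => ?_⟩
  · have hi' : i ≠ i' := hi
    refine mem_fex.2 fun t _ => ?_
    obtain ⟨r, hr, h1, h2⟩ := longer t (Sum.inl i') (t.1.n (Sum.inl i) + 1)
    have h3 := h2 (Sum.inl i) (by simpa using hi') le_rfl
    obtain ⟨k, hk⟩ := step r (Sum.inl i)
    obtain ⟨u, hu, h4, h5, -⟩ := hk
      (2 * k + if Nat.bodd (r.1.f (Sum.inl i') (t.1.n (Sum.inl i))) then 0 else 1) (by omega)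
    refine ⟨u, hu.trans hr, t.1.n (Sum.inl i), fex_of_mem
      (!Nat.bodd (r.1.f (Sum.inl i') (t.1.n (Sum.inl i))))
      (down_fand (down_meets _) (down_meets _)) ⟨meets_of_mem fun x hx => ?_,
        meets_of_mem fun x hx => ?_⟩⟩
    · rw [(hx _).1 _ (by omega), ← h3, h5, h3]
      cases Nat.bodd (r.1.f (Sum.inl i') (t.1.n (Sum.inl i))) <;> simp
    · rw [(hu hx _).1 _ (by omega), Bool.not_not]
  · let u : ℕ → ℕ → Set (Cond rk0) := fun c v =>
      {t | (v = 1 ∧ ∃ s, Encodable.encode s = c ∧ t ∈ meets (U s)) ∨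
        (v = 0 ∧ ∀ s, Encodable.encode s = c → t ∈ fnot (meets (U s)))}
    have hud : ∀ c v, Down (u c v) := by
      rintro c v t (⟨h1, s, h2, h3⟩ | ⟨h1, h2⟩) t' ht'
      · exact Or.inl ⟨h1, s, h2, down_meets _ _ h3 _ ht'⟩
      · exact Or.inr ⟨h1, fun s hs => down_fnot _ _ (h2 s hs) _ ht'⟩
    have hu : q ∈ IsFun u := by
      refine ⟨fun c => mem_fex.2 fun t _ => ?_, fun c v v' => mem_fimp.2 ?_⟩
      · by_cases h : ∃ t' ≤ t, ∃ s, Encodable.encode s = c ∧ t' ∈ meets (U s)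
        · obtain ⟨t', ht', h⟩ := h
          exact ⟨t', ht', 1, meets_of_mem (Or.inl ⟨rfl, h⟩)⟩
        · exact ⟨t, le_rfl, 0, meets_of_mem (Or.inr ⟨rfl, fun s hs t' ht' h' =>
            h ⟨t', ht', s, hs, h'⟩⟩)⟩
      · rintro t - ⟨h1, h2⟩
        obtain ⟨t1, ht1, h3⟩ := exists_of_meets (hud c v) h1
        obtain ⟨t2, ht2, h4⟩ := exists_of_meets (hud c v') (down_meets _ _ h2 t1 ht1)
        refine ⟨t, le_rfl, ?_⟩
        rcases hud c v t1 h3 t2 ht2 with ⟨a1, s, a2, a3⟩ | ⟨a1, a2⟩ <;>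
          rcases h4 with ⟨b1, s', b2, b3⟩ | ⟨b1, b2⟩
        · exact a1.trans b1.symm
        · exact absurd a3 (b2 s a2 t2 le_rfl)
        · exact absurd b3 (a2 s' b2 t2 le_rfl)
        · exact a1.trans b1.symm
    obtain ⟨F, S, h1, h2, -, h4⟩ := capture u q hu
    obtain ⟨S', h5, h6⟩ := exists_dep q
    have hcount : ((fun z : Om × Bool => z.1) '' (Sum.inl ⁻¹' (S ∪ S'))).Countable :=
      ((h1.union h5).preimage Sum.inl_injective).image _
    obtain ⟨g, hg⟩ := Set.countable_iff_exists_subset_range.1 hcount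
    obtain ⟨β, hβ⟩ := exists_bound g
    refine fex_of_mem β (down_fall fun _ => down_fimp _ _) fun α => fimp_of fun q' hq' hα => ?_
    have hα' : β ≤ α := hα
    have hnot : ∀ b, Sum.inl (α, b) ∉ S ∪ S' := by
      intro b hb
      obtain ⟨n, hn⟩ := hg ⟨(α, b), hb, rfl⟩
      exact absurd (hβ n) (not_lt.2 (hα'.trans hn.ge))
    let π : JJ → JJ := Equiv.swap (Sum.inl (α, true)) (Sum.inl (α, false))
    have hπ : ∀ j, π (π j) = j := fun j => Equiv.swap_apply_self _ _ j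
    have hfix : ∀ j ∈ S ∪ S', π j = j := fun j hj =>
      Equiv.swap_apply_of_ne_of_ne (by rintro rfl; exact hnot _ hj) (by rintro rfl; exact hnot _ hj)
    have hrk : ∀ j, rk0 (π j) = rk0 j := by
      intro j
      simp only [π, Equiv.swap_apply_def]
      split_ifs with e1 e2
      · rw [e1]; rfl
      · rw [e2]; rfl
      · rfl
    have hππ : ∀ x : Pt JJ, (x ∘ π) ∘ π = x := fun x => by
      funext j
      simp [hπ]
    refine mem_fex.2 fun t ht => ?_
    obtain ⟨t1, ht1⟩ := exists_perm hπ hrk t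
    have ht1q : t1 ≤ q := fun x hx =>
      h6 (x ∘ π) x (fun j hj => by simp [hfix j (Or.inr hj)]) (hq' (ht ((ht1 x).1 hx)))
    obtain ⟨r1, hr1, s, hs1, hs2⟩ := mem_fex.1 (hq α) t1 ht1q
    obtain ⟨r2, hr2, hs3⟩ := fin_gen _ s r1 hs2
    obtain ⟨r3, hr3, hs4⟩ := h4 r2 (hr2.trans (hr1.trans ht1q)) (Encodable.encode s) 1
      (meets_of_mem (Or.inl ⟨rfl, s, rfl, down_meets _ _ hs1 _ hr2⟩))
    obtain ⟨r4, hr4⟩ := exists_perm hπ hrk r3
    have hr4t : r4 ≤ t := fun x hx => by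
      have := (ht1 _).1 (hr1 (hr2 (hr3 ((hr4 x).1 hx))))
      rwa [hππ] at this
    refine ⟨r4, hr4t, s, meets_of_dense fun w hw => ?_, fun m => meets_of_mem fun x hx => ?_⟩
    · by_contra hc
      push Not at hc
      obtain ⟨w1, hw1, h7⟩ := h4 w (hw.trans (hr4t.trans (ht.trans hq'))) (Encodable.encode s) 0
        (meets_of_mem (Or.inr ⟨rfl, fun s' hs' => by
          rw [Encodable.encode_injective hs']
          exact hc⟩))
      obtain ⟨x, hx⟩ := ext_nonempty w1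
      have h8 := hs4 _ ((hr4 x).1 (hw (hw1 hx)))
      rw [h2 (x ∘ π) x fun j hj => by simp [hfix j (Or.inl hj)], h7 x hx] at h8
      exact zero_ne_one h8
    · have := hs3 _ (hr3 ((hr4 x).1 hx)) m
      simpa [π] using this

theorem exists_forcing : ∃ (P : Type) (_ : Preorder P) (K : Type) (_ : LinearOrder K),
    Nonempty P ∧ ∀ p : P,
      p ∈ OmegaOnePreserved P ∧ p ∈ FBounded P ∧ p ∈ FScale P K ∧ p ∈ FConc P :=
  ⟨Cond rk0, inferInstance, Om2, inferInstance, ⟨top⟩, fun p =>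
    ⟨no_collapse ccc p, forces_bounded p, forces_scale p, forces_conc p⟩⟩

end Pool.Agent.H669Z.Hech
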