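import Pool.Agent.H669Z.Hech.Force
import Pool.Agent.H50Z.Mic.Main

/-!
# The ground model implication
-/

set_option autoImplicit false

namespace Pool.Agent.H669Z.Hech

open Pool.Agent.Helper292.ForceCH Pool.Agent.H50Z.Hur Pool.Agent.H50Z.Mic Cardinal Set

theorem leStar_iff {f g : ℕ → ℕ} : LeStar f g ↔ {n | g n < f n}.Finite := by
  constructor
  · rintro ⟨m, hm⟩
    exact (finite_Iio m).subset fun n hn => by
      by_contra hc
      exact absurd (hm n (not_lt.1 hc)) (not_le.2 hn)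
  · intro h
    obtain ⟨m, hm⟩ := h.bddAbove
    refine ⟨m + 1, fun n hn => ?_⟩
    by_contra hc
    have := hm (show n ∈ {n | g n < f n} from not_le.1 hc)
    omega

theorem leStar_trans {f g h : ℕ → ℕ} (h1 : LeStar f g) (h2 : LeStar g h) : LeStar f h := by
  obtain ⟨m, hm⟩ := h1
  obtain ⟨m', hm'⟩ := h2
  exact ⟨max m m', fun n hn =>
    (hm n ((le_max_left _ _).trans hn)).trans (hm' n ((le_max_right _ _).trans hn))⟩

theorem unbounded_of_dom {F : Set (ℕ → ℕ)}
    (hF : ∀ g : ℕ → ℕ, ∃ f ∈ F, {n : ℕ | f n < g n}.Finite) : IsUnbounded F := by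
  rintro ⟨g, hg⟩
  obtain ⟨f, hf, h⟩ := hF fun n => g n + 1
  refine infinite_univ ((h.union (hg f hf)).subset fun n _ => ?_)
  simp only [mem_union, mem_ofPred_eq]
  omega

theorem univ_dom : ∀ g : ℕ → ℕ, ∃ f ∈ (univ : Set (ℕ → ℕ)), {n : ℕ | f n < g n}.Finite :=
  fun g => ⟨g, mem_univ _, by simp⟩

theorem exists_b : ∃ F : Set (ℕ → ℕ), IsUnbounded F ∧ #F = boundingNumber :=
  csInf_mem (s := {c : Cardinal.{0} | ∃ F : Set (ℕ → ℕ), IsUnbounded F ∧ #F = c})
    ⟨_, univ, unbounded_of_dom univ_dom, rfl⟩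

theorem b_eq_d {K : Type} [LinearOrder K] (h : Scale K) : boundingNumber = dominatingNumber := by
  apply le_antisymm
  · obtain ⟨F, hF, h⟩ := csInf_mem (s := {c : Cardinal.{0} | ∃ F : Set (ℕ → ℕ),
      (∀ g : ℕ → ℕ, ∃ f ∈ F, {n : ℕ | f n < g n}.Finite) ∧ #F = c}) ⟨_, univ, univ_dom, rfl⟩
    have h1 : boundingNumber ≤ #F := csInf_le' ⟨F, unbounded_of_dom hF, rfl⟩
    exact h1.trans h.le
  · obtain ⟨d, h1, h2⟩ := h
    choose κ hκ using h2
    obtain ⟨F, hF, hb⟩ := exists_b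
    rw [← hb]
    refine le_trans (b := #((fun f => d (κ f)) '' F))
      (csInf_le' ⟨(fun f => d (κ f)) '' F, fun g => ?_, rfl⟩) mk_image_le
    have h3 : ∃ f ∈ F, ¬ LeStar f (d (κ g)) := by
      by_contra hc
      push Not at hc
      exact hF ⟨d (κ g), fun f hf => leStar_iff.1 (hc f hf)⟩
    obtain ⟨f, hf, h4⟩ := h3
    refine ⟨_, ⟨f, hf, rfl⟩, leStar_iff.1 (leStar_trans (hκ g) (h1 _ _ ?_))⟩
    by_contra hc
    exact h4 (leStar_trans (hκ f) (h1 _ _ (not_le.1 hc).le))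

theorem aleph_lt_b (h : Bounded) : ℵ₁ < boundingNumber := by
  by_contra hc
  obtain ⟨F, hF, hb⟩ := exists_b
  have h1 : #F ≤ #Om := by
    rw [hb]
    simpa using hc
  have hne : Nonempty F := by
    by_contra h2
    exact hF ⟨0, fun f hf => absurd ⟨⟨f, hf⟩⟩ h2⟩
  obtain ⟨i⟩ := (Cardinal.le_def _ _).1 h1
  obtain ⟨g, hg⟩ := h fun a => (Function.invFun i a).1
  refine hF ⟨g, fun f hf => leStar_iff.1 ?_⟩
  have := hg (i ⟨f, hf⟩)
  rwa [Function.leftInverse_invFun i.injective] at this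

theorem split_conc (h : Conc) : ∃ A B : Set ℝ, Disjoint A B ∧ ¬ A.Countable ∧
    #(A ∪ B : Set ℝ) ≤ ℵ₁ ∧ ∀ U : Set ℝ, IsOpen U → B ⊆ U → (A \ U).Countable := by
  obtain ⟨a, ha1, ha2⟩ := h
  have hinj : Function.Injective a := by
    intro i i' h
    by_contra hc
    obtain ⟨m, b, h1, h2⟩ := ha1 i i' hc
    rw [← h, h1] at h2
    simp at h2
  obtain ⟨e, -, he1, he2⟩ := (show Perfect (univ : Set ℝ) from
    ⟨isClosed_univ, PerfectSpace.univ_preperfect⟩).exists_nat_bool_injection univ_nonempty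
  have hOm : #Om = ℵ₁ := by simp
  refine ⟨range fun α => e (a (α, true)), range fun α => e (a (α, false)), ?_, fun hc => ?_, ?_,
    fun U hU hBU => ?_⟩
  · rw [Set.disjoint_left]
    rintro _ ⟨α, rfl⟩ ⟨β, hβ⟩
    simpa using hinj (he2 hβ)
  · have h1 : Function.Injective fun α : Om => e (a (α, true)) := fun α β h =>
      (Prod.mk.inj (hinj (he2 h))).1
    have h2 := hc.preimage h1
    rw [preimage_range, countable_univ_iff, ← mk_le_aleph0_iff, hOm] at h2
    exact absurd h2 (not_le.2 aleph0_lt_aleph_one)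
  · refine (mk_union_le _ _).trans (add_le_of_le (aleph0_le_aleph 1) ?_ ?_) <;>
      exact mk_range_le.trans hOm.le
  · obtain ⟨β, hβ⟩ := ha2 {s | ∀ x : ℕ → Bool, (∀ m : Fin s.length, x m = s.get m) → e x ∈ U} (by
      intro α
      have h1 : e ⁻¹' U ∈ nhds (a (α, false)) := (hU.preimage he1).mem_nhds (hBU ⟨α, rfl⟩)
      rw [nhds_pi, Filter.mem_pi] at h1
      obtain ⟨I, hI, t, ht, h2⟩ := h1
      obtain ⟨N, hN⟩ := hI.bddAbove
      refine ⟨List.ofFn fun m : Fin (N + 1) => a (α, false) m, fun x hx => h2 fun i hi => ?_,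
        fun m => by simp only [List.get_eq_getElem, List.getElem_ofFn]⟩
      have h3 := hx ⟨i, by simpa using Nat.lt_succ_of_le (hN hi)⟩
      simp only [List.get_eq_getElem, List.getElem_ofFn] at h3
      rw [h3]
      exact mem_of_mem_nhds (ht i))
    refine ((countable_coe_iff.1 (countable_Iio β)).image fun α => e (a (α, true))).mono ?_
    rintro _ ⟨⟨α, rfl⟩, hα⟩
    refine ⟨α, ?_, rfl⟩
    by_contra hc
    obtain ⟨s, hs1, hs2⟩ := hβ α (not_lt.1 hc)
    exact hα (hs1 _ hs2)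

theorem ground (h1 : Bounded) (h3 : Conc) : ∃ X : Set ℝ, #X < boundingNumber ∧
    ∃ (Y : Type) (_ : TopologicalSpace Y), T35Space Y ∧ IsHurewicz Y ∧ ¬ IsMenger (X × Y) := by
  classical
  have hb := aleph_lt_b h1
  obtain ⟨A, B, h1, h2, h3, h4⟩ := split_conc h3
  have hne : A.Nonempty := by
    by_contra h
    rw [not_nonempty_iff_eq_empty] at h
    exact h2 (h ▸ countable_empty)
  obtain ⟨a, ha⟩ := hne
  have : Nonempty (Mic A B) := ⟨⟨(a, fun a' : A => decide (a = a')), Or.inl ha, by congr⟩⟩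
  have hH : IsHurewicz (Mic A B) := by
    apply hurewicz_of_small
    · refine lt_of_le_of_lt (le_trans ?_ h3) hb
      exact Cardinal.mk_le_of_injective (f := fun p : Mic A B => (⟨p.1.1, p.2.1⟩ : (A ∪ B : Set ℝ)))
        fun p q h => mic_inj A B (congrArg Subtype.val h)
    · exact mic_lindelof fun U hU hBU => h4 U hU fun b hb =>
        hBU ⟨hb, fun h => disjoint_left.1 h1 h hb⟩
  exact ⟨A, ((Cardinal.mk_le_mk_of_subset subset_union_left).trans h3).trans_lt hb, Mic A B,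
    inferInstance, inferInstance, hH, mic_not_menger h2⟩

theorem ground_hurewicz (K : Type) [LinearOrder K] (h1 : Bounded) (h2 : Scale K) (h3 : Conc) :
    boundingNumber = dominatingNumber ∧ ∃ X : Set ℝ, #X < boundingNumber ∧
      ∃ (Y : Type) (_ : TopologicalSpace Y), T35Space Y ∧ IsHurewicz Y ∧ ¬ IsHurewicz (X × Y) := by
  obtain ⟨X, hX, Y, _, hY1, hY2, hY3⟩ := ground h1 h3
  exact ⟨b_eq_d h2, X, hX, Y, inferInstance, hY1, hY2, fun h => hY3 (menger_of_hurewicz h)⟩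

theorem ground_menger (K : Type) [LinearOrder K] (h1 : Bounded) (h2 : Scale K) (h3 : Conc) :
    boundingNumber = dominatingNumber ∧ ∃ X : Set ℝ, #X < boundingNumber ∧
      ∃ (Y : Type) (_ : TopologicalSpace Y), T35Space Y ∧ IsMenger Y ∧ ¬ IsMenger (X × Y) := by
  obtain ⟨X, hX, Y, _, hY1, hY2, hY3⟩ := ground h1 h3
  exact ⟨b_eq_d h2, X, hX, Y, inferInstance, hY1, menger_of_hurewicz hY2, hY3⟩

end Pool.Agent.H669Z.Hech
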