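import Mathlib

/-!
# A finite support iteration of Hechler forcing with semantic conditions

Coordinates `j : J` carry a rank `rk j` in a well order. A condition is a finite family of stems
and promises; it is identified with the set of points of `J → ℕ → ℕ` which obey it.
-/

set_option autoImplicit false

namespace Pool.Agent.H669Z.Hech

variable {J L : Type}

abbrev Pt (J : Type) : Type := J → ℕ → ℕ

structure Raw (J : Type) where
  n : J → ℕ
  f : J → ℕ → ℕ
  F : J → Pt J → ℕ → ℕ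

def Raw.At (p : Raw J) (j : J) (x : Pt J) : Prop :=
  (∀ m < p.n j, x j m = p.f j m) ∧ ∀ m, p.n j ≤ m → p.F j x m ≤ x j m

def Raw.ext (p : Raw J) : Set (Pt J) := {x | ∀ j, p.At j x}

def Raw.supp (p : Raw J) : Set J := {j | p.n j ≠ 0 ∨ p.F j ≠ 0}

def Dep (F : Pt J → ℕ → ℕ) (S : Set J) : Prop := ∀ x y, (∀ j ∈ S, x j = y j) → F x = F y

theorem At_of_not_supp {p : Raw J} {j : J} (h : j ∉ p.supp) (x : Pt J) : p.At j x := by
  simp only [Raw.supp, Set.mem_ofPred_eq, not_or, not_not] at h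
  refine ⟨fun m hm => ?_, fun m _ => ?_⟩
  · omega
  · rw [h.2]; exact Nat.zero_le _

theorem At_of_eq {p q : Raw J} {j : J} (h1 : q.n j = p.n j) (h2 : q.f j = p.f j)
    (h3 : q.F j = p.F j) (x : Pt J) : q.At j x ↔ p.At j x := by
  unfold Raw.At
  rw [h1, h2, h3]

variable [LinearOrder L] [WellFoundedLT L] (rk : J → L)

noncomputable def Adm : L → (Pt J → ℕ → ℕ) → Prop :=
  WellFounded.fix wellFounded_lt fun l rec F =>
    (∃ S : Set J, S.Countable ∧ (∀ j ∈ S, rk j < l) ∧ Dep F S) ∧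
    ∀ (m : ℕ) (p : Raw J),
      (p.supp.Finite ∧ ∀ j ∈ p.supp, ∃ h : rk j < l, rec (rk j) h (p.F j)) →
      ∃ q : Raw J, (q.supp.Finite ∧ ∀ j ∈ q.supp, ∃ h : rk j < l, rec (rk j) h (q.F j)) ∧
        q.ext ⊆ p.ext ∧ ∃ k, ∀ x ∈ q.ext, F x m = k

def GoodAt (l : L) (p : Raw J) : Prop :=
  p.supp.Finite ∧ ∀ j ∈ p.supp, rk j < l ∧ Adm rk (rk j) (p.F j)

theorem adm_iff (l : L) (F : Pt J → ℕ → ℕ) : Adm rk l F ↔
    (∃ S : Set J, S.Countable ∧ (∀ j ∈ S, rk j < l) ∧ Dep F S) ∧
    ∀ (m : ℕ) (p : Raw J), GoodAt rk l p →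
      ∃ q : Raw J, GoodAt rk l q ∧ q.ext ⊆ p.ext ∧ ∃ k, ∀ x ∈ q.ext, F x m = k := by
  unfold GoodAt
  conv_lhs => rw [Adm, WellFounded.fix_eq]
  simp only [exists_prop]
  rfl

theorem adm_zero (l : L) : Adm rk l 0 :=
  (adm_iff rk l 0).2 ⟨⟨∅, Set.countable_empty, by simp, fun _ _ _ => rfl⟩,
    fun _ p hp => ⟨p, hp, subset_rfl, 0, fun _ _ => rfl⟩⟩

theorem Adm.congr {rk : J → L} {l : L} {F : Pt J → ℕ → ℕ} (h : Adm rk l F) {x y : Pt J}
    (hxy : ∀ j, rk j < l → x j = y j) : F x = F y := by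
  obtain ⟨S, -, h1, h2⟩ := ((adm_iff rk l F).1 h).1
  exact h2 x y fun j hj => hxy j (h1 j hj)

/-- conditions -/
def Cond : Type := {p : Raw J // p.supp.Finite ∧ ∀ j, Adm rk (rk j) (p.F j)}

instance : Preorder (Cond rk) where
  le q p := q.1.ext ⊆ p.1.ext
  le_refl _ := subset_rfl
  le_trans _ _ _ h1 h2 := h1.trans h2

variable {rk}

theorem le_def {q p : Cond rk} : q ≤ p ↔ q.1.ext ⊆ p.1.ext := Iff.rfl

def top : Cond rk := ⟨⟨0, 0, 0⟩, by simp [Raw.supp], fun _ => adm_zero rk _⟩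

theorem top_At (j : J) (x : Pt J) : (top : Cond rk).1.At j x :=
  At_of_not_supp (by simp [top, Raw.supp]) x

theorem le_top' (p : Cond rk) : p ≤ top := fun x _ j => top_At j x

def ofGood {l : L} (p : Raw J) (h : GoodAt rk l p) : Cond rk :=
  ⟨p, h.1, fun j => by
    by_cases hj : j ∈ p.supp
    · exact (h.2 j hj).2
    · simp only [Raw.supp, Set.mem_ofPred_eq, not_or, not_not] at hj
      rw [hj.2]; exact adm_zero rk _⟩

theorem At_congr (p : Cond rk) {j : J} {x y : Pt J} (h1 : ∀ i, rk i < rk j → x i = y i)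
    (h2 : x j = y j) (h : p.1.At j x) : p.1.At j y := by
  unfold Raw.At at h ⊢
  rw [← h2, ← (p.2.2 j).congr h1]
  exact h

theorem ext_point (p : Cond rk) (D : Finset J) (y : Pt J) :
    ∃ x : Pt J, (∀ j ∉ D, x j = y j) ∧ ∀ j ∈ D, p.1.At j x := by
  classical
  induction D using Finset.induction_on_max_value rk with
  | empty => exact ⟨y, fun _ _ => rfl, by simp⟩
  | insert a s ha hmax ih =>
    obtain ⟨x, hx1, hx2⟩ := ih
    let x' : Pt J := Function.update x a fun m => if m < p.1.n a then p.1.f a m else p.1.F a x m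
    have hne : ∀ j, j ≠ a → x' j = x j := fun j hj => Function.update_of_ne hj _ _
    refine ⟨x', fun j hj => ?_, fun j hj => ?_⟩
    · rw [Finset.mem_insert, not_or] at hj
      rw [hne j hj.1, hx1 j hj.2]
    · rcases Finset.mem_insert.1 hj with rfl | hj'
      · have hF : p.1.F j x' = p.1.F j x :=
          (p.2.2 j).congr fun i hi => hne i (by rintro rfl; exact lt_irrefl _ hi)
        refine ⟨fun m hm => ?_, fun m hm => ?_⟩
        · simp [x', hm]
        · rw [hF]
          simp [x', not_lt.2 hm]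
      · refine At_congr p (fun i hi => (hne i ?_).symm) (hne j ?_).symm (hx2 j hj')
        · rintro rfl
          exact absurd (hmax j hj') (not_le.2 hi)
        · rintro rfl
          exact ha hj'

theorem ext_agree (p : Cond rk) (l : L) (y : Pt J) (hy : ∀ j, rk j < l → p.1.At j y) :
    ∃ x ∈ p.1.ext, ∀ j, rk j < l → x j = y j := by
  classical
  obtain ⟨x, hx1, hx2⟩ := ext_point p (p.2.1.toFinset.filter fun j => ¬ rk j < l) y
  have h1 : ∀ j, rk j < l → x j = y j := fun j hj => hx1 j (by simp [hj])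
  refine ⟨x, fun j => ?_, h1⟩
  by_cases hj : rk j < l
  · exact At_congr p (fun i hi => (h1 i (hi.trans hj)).symm) (h1 j hj).symm (hy j hj)
  · by_cases hs : j ∈ p.1.supp
    · exact hx2 j (by simp [hs, not_lt.1 hj])
    · exact At_of_not_supp hs x

theorem ext_nonempty (p : Cond rk) : p.1.ext.Nonempty := by
  classical
  obtain ⟨x, -, hx⟩ := ext_point p p.2.1.toFinset 0
  refine ⟨x, fun j => ?_⟩
  by_cases hs : j ∈ p.1.supp
  · exact hx j (by simp [hs])
  · exact At_of_not_supp hs x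

/-- `q` below the level `l` and `p` from it on -/
def am (l : L) (q p : Cond rk) : Cond rk :=
  ⟨⟨fun j => if rk j < l then q.1.n j else p.1.n j, fun j => if rk j < l then q.1.f j else p.1.f j,
    fun j => if rk j < l then q.1.F j else p.1.F j⟩,
    (q.2.1.union p.2.1).subset fun j hj => by
      by_cases h : rk j < l
      · left; simpa [Raw.supp, h] using hj
      · right; simpa [Raw.supp, h] using hj,
    fun j => by
      by_cases h : rk j < l
      · simpa [h] using q.2.2 j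
      · simpa [h] using p.2.2 j⟩

theorem am_lt {l : L} {q p : Cond rk} {j : J} (h : rk j < l) (x : Pt J) :
    (am l q p).1.At j x ↔ q.1.At j x :=
  At_of_eq (by simp [am, h]) (by simp [am, h]) (by simp [am, h]) x

theorem am_ge {l : L} {q p : Cond rk} {j : J} (h : ¬ rk j < l) (x : Pt J) :
    (am l q p).1.At j x ↔ p.1.At j x :=
  At_of_eq (by simp [am, h]) (by simp [am, h]) (by simp [am, h]) x

theorem res_good (l : L) (p : Cond rk) : GoodAt rk l (am l p top).1 := by
  refine ⟨(am l p top).2.1, fun j hj => ⟨?_, (am l p top).2.2 j⟩⟩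
  by_contra h
  simp [am, Raw.supp, h, top] at hj

theorem mem_res {l : L} {p : Cond rk} {x : Pt J} :
    x ∈ (am l p top).1.ext ↔ ∀ j, rk j < l → p.1.At j x := by
  constructor
  · intro h j hj
    exact (am_lt hj x).1 (h j)
  · intro h j
    by_cases hj : rk j < l
    · exact (am_lt hj x).2 (h j hj)
    · exact (am_ge hj x).2 (top_At j x)

theorem mem_good {l : L} {p : Raw J} (hp : GoodAt rk l p) {x : Pt J}
    (h : ∀ j, rk j < l → p.At j x) : x ∈ p.ext := by
  intro j
  by_cases hs : j ∈ p.supp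
  · exact h j (hp.2 j hs).1
  · exact At_of_not_supp hs x

theorem adm_decide {l : L} {F : Pt J → ℕ → ℕ} (h : Adm rk l F) (p : Cond rk) (m : ℕ) :
    ∃ q ≤ p, (∀ j, l ≤ rk j → q.1.n j = p.1.n j ∧ q.1.f j = p.1.f j ∧ q.1.F j = p.1.F j) ∧
      ∃ k, ∀ x ∈ q.1.ext, F x m = k := by
  obtain ⟨q, hq, h1, k, hk⟩ := ((adm_iff rk l F).1 h).2 m _ (res_good l p)
  have h2 : ∀ x ∈ (am l (ofGood q hq) p).1.ext, x ∈ q.ext := fun x hx =>
    mem_good hq fun j hj => (am_lt hj x).1 (hx j)
  refine ⟨am l (ofGood q hq) p, fun x hx j => ?_, fun j hj => ?_, k, fun x hx => hk x (h2 x hx)⟩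
  · by_cases hj : rk j < l
    · exact mem_res.1 (h1 (h2 x hx)) j hj
    · exact (am_ge hj x).1 (hx j)
  · simp [am, not_lt.2 hj]

theorem adm_of_global {l : L} {F : Pt J → ℕ → ℕ} {S : Set J} (hS : S.Countable)
    (hl : ∀ j ∈ S, rk j < l) (hD : Dep F S)
    (h : ∀ (m : ℕ) (p : Cond rk), ∃ q ≤ p, ∃ k, ∀ x ∈ q.1.ext, F x m = k) : Adm rk l F := by
  refine (adm_iff rk l F).2 ⟨⟨S, hS, hl, hD⟩, fun m p hp => ?_⟩
  obtain ⟨q, hq, k, hk⟩ := h m (ofGood p hp)
  refine ⟨_, res_good l q, fun y hy => ?_, k, fun y hy => ?_⟩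
  · obtain ⟨x, hx, hxy⟩ := ext_agree q l y (mem_res.1 hy)
    exact mem_good hp fun j hj =>
      At_congr (ofGood p hp) (fun i hi => hxy i (hi.trans hj)) (hxy j hj) (hq hx j)
  · obtain ⟨x, hx, hxy⟩ := ext_agree q l y (mem_res.1 hy)
    rw [← hD x y fun j hj => hxy j (hl j hj)]
    exact hk x hx

theorem adm_max {l : L} {F G : Pt J → ℕ → ℕ} (hF : Adm rk l F) (hG : Adm rk l G) :
    Adm rk l fun x m => max (F x m) (G x m) := by
  obtain ⟨S, h1, h2, h3⟩ := ((adm_iff rk l F).1 hF).1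
  obtain ⟨S', h1', h2', h3'⟩ := ((adm_iff rk l G).1 hG).1
  refine adm_of_global (h1.union h1') ?_ ?_ fun m p => ?_
  · rintro j (hj | hj)
    · exact h2 j hj
    · exact h2' j hj
  · intro x y hxy
    simp only [h3 x y fun j hj => hxy j (Or.inl hj), h3' x y fun j hj => hxy j (Or.inr hj)]
  · obtain ⟨q, hq, -, k, hk⟩ := adm_decide hF p m
    obtain ⟨r, hr, -, k', hk'⟩ := adm_decide hG q m
    exact ⟨r, hr.trans hq, max k k', fun x hx => by simp only [hk x (hr hx), hk' x hx]⟩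

open Classical in
/-- change a condition at one coordinate -/
noncomputable def upd (p : Cond rk) (j : J) (n : ℕ) (f : ℕ → ℕ) (F : Pt J → ℕ → ℕ)
    (hF : Adm rk (rk j) F) : Cond rk :=
  ⟨⟨Function.update p.1.n j n, Function.update p.1.f j f, Function.update p.1.F j F⟩,
    (p.2.1.insert j).subset fun i hi => by
      by_cases h : i = j
      · exact Or.inl h
      · right; simpa [Raw.supp, h] using hi,
    fun i => by
      by_cases h : i = j
      · subst h; simpa using hF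
      · simpa [h] using p.2.2 i⟩

theorem upd_ne {p : Cond rk} {j : J} {n : ℕ} {f : ℕ → ℕ} {F : Pt J → ℕ → ℕ}
    {hF : Adm rk (rk j) F} {i : J} (h : i ≠ j) (x : Pt J) :
    (upd p j n f F hF).1.At i x ↔ p.1.At i x :=
  At_of_eq (by simp [upd, h]) (by simp [upd, h]) (by simp [upd, h]) x

theorem upd_self {p : Cond rk} {j : J} {n : ℕ} {f : ℕ → ℕ} {F : Pt J → ℕ → ℕ}
    {hF : Adm rk (rk j) F} (x : Pt J) :
    (upd p j n f F hF).1.At j x ↔ (∀ m < n, x j m = f m) ∧ ∀ m, n ≤ m → F x m ≤ x j m := by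
  simp [upd, Raw.At]

theorem step (p : Cond rk) (j : J) : ∃ k, ∀ v, k ≤ v → ∃ q ≤ p, q.1.n j = p.1.n j + 1 ∧
    q.1.f j (p.1.n j) = v ∧ ∀ i, i ≠ j → rk j ≤ rk i → q.1.n i = p.1.n i := by
  obtain ⟨q, hq, h1, k, hk⟩ := adm_decide (p.2.2 j) p (p.1.n j)
  refine ⟨k, fun v hv => ?_⟩
  obtain ⟨e1, e2, e3⟩ := h1 j le_rfl
  refine ⟨upd q j (p.1.n j + 1) (Function.update (p.1.f j) (p.1.n j) v) (p.1.F j) (p.2.2 j),
    le_trans ?_ hq, by simp [upd], by simp [upd], fun i hi hi' => ?_⟩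
  · intro x hx
    have hxj := (upd_self x).1 (hx j)
    obtain ⟨y, hy, hxy⟩ := ext_agree q (rk j) x fun i hi =>
      (upd_ne (by rintro rfl; exact lt_irrefl _ hi) x).1 (hx i)
    have hkx : p.1.F j x (p.1.n j) = k := by
      rw [← (p.2.2 j).congr hxy]
      exact hk y hy
    intro i
    by_cases hi : i = j
    · subst hi
      rw [At_of_eq e1 e2 e3]
      refine ⟨fun m hm => ?_, fun m hm => ?_⟩
      · rw [hxj.1 m (by omega), Function.update_of_ne hm.ne]
      · rcases hm.eq_or_lt with h | h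
        · subst h
          rw [hxj.1 _ (by omega), Function.update_self, hkx]
          exact hv
        · exact hxj.2 m h
    · exact (upd_ne hi x).1 (hx i)
  · rw [← (h1 i hi').1]
    simp [upd, hi]

theorem longer (p : Cond rk) (j : J) (N : ℕ) : ∃ q ≤ p, N ≤ q.1.n j ∧
    ∀ i, i ≠ j → rk j ≤ rk i → q.1.n i = p.1.n i := by
  induction N with
  | zero => exact ⟨p, le_rfl, Nat.zero_le _, fun _ _ _ => rfl⟩
  | succ N ih =>
    obtain ⟨q, hq, h1, h2⟩ := ih
    obtain ⟨k, hk⟩ := step q j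
    obtain ⟨r, hr, h3, -, h4⟩ := hk k le_rfl
    exact ⟨r, hr.trans hq, by omega, fun i hi hi' => (h4 i hi hi').trans (h2 i hi hi')⟩

theorem promise (p : Cond rk) (j : J) {F : Pt J → ℕ → ℕ} (hF : Adm rk (rk j) F) :
    ∃ q ≤ p, ∀ x ∈ q.1.ext, ∀ m, p.1.n j ≤ m → F x m ≤ x j m := by
  refine ⟨upd p j (p.1.n j) (p.1.f j) _ (adm_max (p.2.2 j) hF), fun x hx i => ?_,
    fun x hx m hm => ?_⟩
  · by_cases hi : i = j
    · subst hi
      have := (upd_self x).1 (hx i)
      exact ⟨this.1, fun m hm => (le_max_left _ _).trans (this.2 m hm)⟩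
    · exact (upd_ne hi x).1 (hx i)
  · exact (le_max_right _ _).trans (((upd_self x).1 (hx j)).2 m hm)

theorem decide_upto {l : L} {F : Pt J → ℕ → ℕ} (h : Adm rk l F) (p : Cond rk) (N : ℕ) :
    ∃ q ≤ p, (∀ j, l ≤ rk j → q.1.n j = p.1.n j) ∧
      ∃ k : ℕ → ℕ, ∀ x ∈ q.1.ext, ∀ m < N, F x m = k m := by
  induction N with
  | zero => exact ⟨p, le_rfl, fun _ _ => rfl, 0, fun _ _ m hm => absurd hm (by omega)⟩
  | succ N ih =>
    obtain ⟨q, hq, h1, k, hk⟩ := ih
    obtain ⟨r, hr, h2, k', hk'⟩ := adm_decide h q N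
    refine ⟨r, hr.trans hq, fun j hj => (h2 j hj).1.trans (h1 j hj), Function.update k N k',
      fun x hx m hm => ?_⟩
    rcases (Nat.lt_succ_iff.1 hm).eq_or_lt with rfl | hm'
    · rw [Function.update_self, hk' x hx]
    · rw [Function.update_of_ne hm'.ne, hk x (hr hx) m hm']

theorem decide_At (r a : Cond rk) (j : J) :
    ∃ q ≤ r, (∀ x ∈ q.1.ext, a.1.At j x) ∨ ∀ x ∈ q.1.ext, ¬ a.1.At j x := by
  obtain ⟨q1, hq1, h1, -⟩ := longer r j (a.1.n j)
  obtain ⟨q2, hq2, h2, k, hk⟩ := decide_upto (a.2.2 j) q1 (q1.1.n j)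
  have h3 := h2 j le_rfl
  obtain ⟨q3, hq3, h4⟩ := promise q2 j (a.2.2 j)
  refine ⟨q3, hq3.trans (hq2.trans hq1), ?_⟩
  by_cases hc : ∃ y ∈ q3.1.ext, a.1.At j y
  · left
    obtain ⟨y, hy, hya⟩ := hc
    intro x hx
    have hxy : ∀ m < q1.1.n j, x j m = y j m := fun m hm => by
      rw [(hq2 (hq3 hx) j).1 m hm, (hq2 (hq3 hy) j).1 m hm]
    refine ⟨fun m hm => ?_, fun m hm => ?_⟩
    · rw [hxy m (by omega), hya.1 m hm]
    · by_cases hm' : m < q1.1.n j
      · rw [hxy m hm', hk x (hq3 hx) m hm', ← hk y (hq3 hy) m hm']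
        exact hya.2 m hm
      · exact h4 x hx m (by omega)
  · right
    intro x hx h
    exact hc ⟨x, hx, h⟩

theorem decide_ext (r a : Cond rk) : ∃ q ≤ r, q ≤ a ∨ ∀ x ∈ q.1.ext, x ∉ a.1.ext := by
  classical
  have key : ∀ D : Finset J, ∃ q ≤ r, (∀ x ∈ q.1.ext, ∀ j ∈ D, a.1.At j x) ∨
      ∀ x ∈ q.1.ext, x ∉ a.1.ext := by
    intro D
    induction D using Finset.induction_on with
    | empty => exact ⟨r, le_rfl, Or.inl (by simp)⟩
    | insert j D _ ih =>
      obtain ⟨q, hq, h | h⟩ := ih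
      · obtain ⟨q', hq', h' | h'⟩ := decide_At q a j
        · refine ⟨q', hq'.trans hq, Or.inl fun x hx i hi => ?_⟩
          rcases Finset.mem_insert.1 hi with rfl | hi
          · exact h' x hx
          · exact h x (hq' hx) i hi
        · exact ⟨q', hq'.trans hq, Or.inr fun x hx hxa => h' x hx (hxa j)⟩
      · exact ⟨q, hq, Or.inr h⟩
  obtain ⟨q, hq, h | h⟩ := key a.2.1.toFinset
  · refine ⟨q, hq, Or.inl fun x hx j => ?_⟩
    by_cases hs : j ∈ a.1.supp
    · exact h x hx j (by simp [hs])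
    · exact At_of_not_supp hs x
  · exact ⟨q, hq, Or.inr h⟩

/-- a condition depends on countably many coordinates -/
theorem exists_dep (p : Cond rk) : ∃ S : Set J, S.Countable ∧
    ∀ x y : Pt J, (∀ j ∈ S, x j = y j) → x ∈ p.1.ext → y ∈ p.1.ext := by
  choose S h1 h2 h3 using fun j => ((adm_iff rk (rk j) (p.1.F j)).1 (p.2.2 j)).1
  refine ⟨p.1.supp ∪ ⋃ j ∈ p.1.supp, S j,
    p.2.1.countable.union (p.2.1.countable.biUnion fun j _ => h1 j), fun x y hxy hx j => ?_⟩
  by_cases hs : j ∈ p.1.supp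
  · have := hx j
    unfold Raw.At at this ⊢
    rw [← hxy j (Or.inl hs), ← h3 j x y fun i hi => hxy i (Or.inr (Set.mem_biUnion hs hi))]
    exact this
  · exact At_of_not_supp hs y

/-! ### Symmetry -/

def Raw.perm (π : J → J) (p : Raw J) : Raw J :=
  ⟨fun j => p.n (π j), fun j => p.f (π j), fun j x => p.F (π j) (x ∘ π)⟩

omit [LinearOrder L] [WellFoundedLT L] in
theorem mem_perm {π : J → J} (hπ : ∀ j, π (π j) = j) (p : Raw J) (x : Pt J) :
    x ∈ (p.perm π).ext ↔ x ∘ π ∈ p.ext := by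
  constructor
  · intro h j
    have := h (π j)
    simpa [Raw.At, Raw.perm, hπ] using this
  · intro h j
    have := h (π j)
    simpa [Raw.At, Raw.perm, hπ] using this

omit [LinearOrder L] [WellFoundedLT L] in
theorem supp_perm {π : J → J} (p : Raw J) {j : J} (h : j ∈ (p.perm π).supp) : π j ∈ p.supp := by
  by_contra hc
  simp only [Raw.supp, Set.mem_ofPred_eq, not_or, not_not] at hc
  rcases h with h | h
  · exact h hc.1
  · apply h
    funext x
    simp [Raw.perm, hc.2]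

theorem adm_perm {π : J → J} (hπ : ∀ j, π (π j) = j) (hrk : ∀ j, rk (π j) = rk j) (l : L) :
    ∀ F : Pt J → ℕ → ℕ, Adm rk l F → Adm rk l fun x => F (x ∘ π) := by
  induction l using WellFoundedLT.induction with
  | ind l ih =>
    have hinj : Function.Injective π := fun a b h => by rw [← hπ a, h, hπ]
    have hg : ∀ p : Raw J, GoodAt rk l p → GoodAt rk l (p.perm π) := fun p hp => by
      refine ⟨(hp.1.preimage hinj.injOn).subset fun j hj => supp_perm p hj, fun j hj => ?_⟩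
      obtain ⟨h1, h2⟩ := hp.2 _ (supp_perm p hj)
      rw [hrk] at h1 h2
      exact ⟨h1, ih _ h1 _ h2⟩
    intro F hF
    obtain ⟨⟨S, h1, h2, h3⟩, h4⟩ := (adm_iff rk l F).1 hF
    refine (adm_iff rk l _).2 ⟨⟨π '' S, h1.image _, ?_, ?_⟩, fun m p hp => ?_⟩
    · rintro _ ⟨j, hj, rfl⟩
      rw [hrk]
      exact h2 j hj
    · intro x y hxy
      exact h3 _ _ fun j hj => hxy _ ⟨j, hj, rfl⟩
    · obtain ⟨q, hq, h5, k, hk⟩ := h4 m _ (hg p hp)
      refine ⟨q.perm π, hg q hq, fun x hx => ?_, k, fun x hx => hk _ ((mem_perm hπ q x).1 hx)⟩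
      have := (mem_perm hπ p _).1 (h5 ((mem_perm hπ q x).1 hx))
      have h6 : (x ∘ π) ∘ π = x := by
        funext j
        simp [hπ]
      rwa [h6] at this

theorem exists_perm {π : J → J} (hπ : ∀ j, π (π j) = j) (hrk : ∀ j, rk (π j) = rk j)
    (p : Cond rk) : ∃ q : Cond rk, ∀ x, x ∈ q.1.ext ↔ x ∘ π ∈ p.1.ext := by
  have hinj : Function.Injective π := fun a b h => by rw [← hπ a, h, hπ]
  refine ⟨⟨p.1.perm π, (p.2.1.preimage hinj.injOn).subset fun j hj => supp_perm p.1 hj,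
    fun j => ?_⟩, mem_perm hπ p.1⟩
  have := adm_perm hπ hrk _ _ (p.2.2 (π j))
  rw [hrk] at this
  exact this

/-! ### The countable chain condition -/

open MeasureTheory ProbabilityTheory in
theorem exists_agree {I : Type} {Y : Type} (T : Y → Set I) (hT : ∀ y, (T y).Finite)
    (c : Y → I → ℕ) (hY : ¬ Countable Y) :
    ∃ y y', y ≠ y' ∧ ∀ η ∈ T y, η ∈ T y' → c y η = c y' η := by
  classical
  by_contra hcon
  push Not at hcon
  apply hY
  let μ : Measure (I → ℕ) := Measure.infinitePi fun _ => poissonMeasure 1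
  let E : Y → Set (I → ℕ) := fun y => Set.pi ((hT y).toFinset : Set I) fun η => {c y η}
  have hE : ∀ y, MeasurableSet (E y) := fun y =>
    MeasurableSet.pi (Finset.countable_toSet _) fun _ _ => measurableSet_singleton _
  have hpos : ∀ y, 0 < μ (E y) := by
    intro y
    have : μ (E y) = ∏ η ∈ (hT y).toFinset, poissonMeasure 1 {c y η} :=
      Measure.infinitePi_pi _ fun _ _ => measurableSet_singleton _
    rw [this, pos_iff_ne_zero, Finset.prod_ne_zero_iff]
    intro η _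
    rw [poissonMeasure_singleton]
    simp only [ne_eq, ENNReal.ofReal_eq_zero, not_le]
    positivity
  have hdisj : Pairwise (Function.onFun Disjoint E) := by
    intro y y' hne
    obtain ⟨η, h1, h2, h3⟩ := hcon y y' hne
    rw [Function.onFun, Set.disjoint_left]
    intro x hx hx'
    have h4 := hx η (by simpa using h1)
    have h5 := hx' η (by simpa using h2)
    simp only [Set.mem_singleton_iff] at h4 h5
    exact h3 (h4.symm.trans h5)
  have := Measure.countable_meas_pos_of_disjoint_iUnion (μ := μ) hE hdisj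
  have h2 : {i : Y | 0 < μ (E i)} = Set.univ := Set.eq_univ_of_forall hpos
  rw [h2] at this
  exact Set.countable_univ_iff.1 this

theorem ccc (A : Set (Cond rk)) (hA : ∀ a ∈ A, ∀ b ∈ A, (∃ r, r ≤ a ∧ r ≤ b) → a = b) :
    A.Countable := by
  classical
  by_contra hcon
  obtain ⟨a, b, hne, h⟩ := exists_agree (I := J) (Y := A) (fun a => a.1.1.supp) (fun a => a.1.2.1)
    (fun a j => Encodable.encode ((List.range (a.1.1.n j)).map (a.1.1.f j)))
    (fun h => hcon (Set.countable_coe_iff.1 h))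
  obtain ⟨a, ha⟩ := a
  obtain ⟨b, hb⟩ := b
  have h1 : ∀ j ∈ a.1.supp, j ∈ b.1.supp → a.1.n j = b.1.n j ∧
      ∀ m < a.1.n j, a.1.f j m = b.1.f j m := by
    intro j hj hj'
    have h2 := Encodable.encode_injective (h j hj hj')
    have h3 : a.1.n j = b.1.n j := by simpa using congrArg List.length h2
    refine ⟨h3, fun m hm => ?_⟩
    dsimp only at h2
    rw [← h3, List.map_inj_left] at h2
    exact h2 m (List.mem_range.2 hm)
  let r : Cond rk := ⟨⟨fun j => if j ∈ a.1.supp then a.1.n j else b.1.n j,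
    fun j => if j ∈ a.1.supp then a.1.f j else b.1.f j,
    fun j x m => max (a.1.F j x m) (b.1.F j x m)⟩,
    (a.2.1.union b.2.1).subset fun j hj => by
      by_contra hc
      simp only [Set.mem_union, not_or] at hc
      have h2 := hc.1
      have h3 := hc.2
      simp only [Raw.supp, Set.mem_ofPred_eq, not_or, not_not] at h2 h3
      rcases hj with hj | hj
      · exact hj (by simp [hc.1, h3.1])
      · apply hj
        funext x m
        simp [h2.2, h3.2],
    fun j => adm_max (a.2.2 j) (b.2.2 j)⟩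
  refine hne (Subtype.ext (hA a ha b hb ⟨r, fun x hx j => ?_, fun x hx j => ?_⟩))
  · by_cases hs : j ∈ a.1.supp
    · have := hx j
      simp only [Raw.At, r, hs, if_true] at this
      exact ⟨this.1, fun m hm => (le_max_left _ _).trans (this.2 m hm)⟩
    · exact At_of_not_supp hs x
  · by_cases hs' : j ∈ b.1.supp
    · have := hx j
      by_cases hs : j ∈ a.1.supp
      · simp only [Raw.At, r, hs, if_true] at this
        obtain ⟨h2, h3⟩ := h1 j hs hs'
        refine ⟨fun m hm => ?_, fun m hm => (le_max_right _ _).trans (this.2 m (by omega))⟩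
        rw [this.1 m (by omega), h3 m (by omega)]
      · simp only [Raw.At, r, hs, if_false] at this
        exact ⟨this.1, fun m hm => (le_max_right _ _).trans (this.2 m hm)⟩
    · exact At_of_not_supp hs' x

/-- every set of conditions has a countable subset which is predense in it -/
theorem exists_predense (D : Set (Cond rk)) : ∃ B ⊆ D, B.Countable ∧
    ∀ d ∈ D, ∃ b ∈ B, ∃ r, r ≤ d ∧ r ≤ b := by
  let Fam : Set (Set (Cond rk)) := {B | B ⊆ D ∧ ∀ b ∈ B, ∀ b' ∈ B, (∃ r, r ≤ b ∧ r ≤ b') → b = b'}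
  obtain ⟨B, hB⟩ := zorn_subset Fam (by
    intro c hc hchain
    refine ⟨⋃₀ c, ⟨?_, ?_⟩, fun s hs => Set.subset_sUnion_of_mem hs⟩
    · exact Set.sUnion_subset fun s hs => (hc hs).1
    · rintro b ⟨s, hs, hbs⟩ b' ⟨s', hs', hbs'⟩
      rcases hchain.total hs hs' with h | h
      · exact (hc hs').2 b (h hbs) b' hbs'
      · exact (hc hs).2 b hbs b' (h hbs'))
  refine ⟨B, hB.prop.1, ccc B hB.prop.2, fun d hd => ?_⟩
  by_contra hc
  push Not at hc
  have h1 : insert d B ∈ Fam := by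
    refine ⟨Set.insert_subset hd hB.prop.1, ?_⟩
    rintro b (rfl | hb) b' (rfl | hb') ⟨r, h1, h2⟩
    · rfl
    · exact absurd h2 (hc b' hb' r h1)
    · exact absurd h1 (hc b hb r h2)
    · exact hB.prop.2 b hb b' hb' ⟨r, h1, h2⟩
  have h2 := hB.le_of_ge h1 (Set.subset_insert _ _) (Set.mem_insert _ _)
  exact hc d h2 d le_rfl le_rfl

end Pool.Agent.H669Z.Hech
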